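import Pool.Agent.Helper74.LL.GoalsG

/-!
# PACKET LL-GEO1 (MP_cc6379_al)
-/

set_option autoImplicit false

open Pool.Agent.Helper15.RA Pool.Agent.Helper45.AM Pool.Agent.Helper74.LL

noncomputable section

namespace Pool.Agent.Helper4.LL

theorem t (h1 : KD1) (h2 : KD2) (h3 : STEP) (h4 : NEWD) (h5 : HARD) (h6 : TR) : GEO1 := by
  intro S W _ M cs hL i j x g y r hij hx hg
  obtain ⟨-, -, d3, -, -, -, -, d8, -, d10, d11⟩ := h2 S W M cs
  have gPA := Pool.Agent.Helper15.AM.k_gpa S W M cs
  obtain ⟨hsinj, gPB⟩ := Pool.Agent.Helper15.AM.k_gpb S W M cs
  have gPC := Pool.Agent.Helper15.AM.k_gpc S W M cs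
  have hgI : g ∈ par cs {i, j} := hg.1
  obtain ⟨-, -, -, -, kfull, klen, -⟩ := h1 S W M cs i j hij (hL.fin i j)
  have hg2 : 2 ≤ cs.length g := ((kfull g).1 hg).2
  have hnr : ∀ w a, ¬ cs.IsRightDescent w a ↔ cs.length (w * cs.simple a) = cs.length w + 1 :=
    fun w a => cs.not_isRightDescent_iff
  have hr1 : ∀ w a, cs.IsRightDescent w a ↔ cs.length (w * cs.simple a) + 1 = cs.length w :=
    fun w a => cs.isRightDescent_iff
  have hnl : ∀ w a, ¬ cs.IsLeftDescent w a ↔ cs.length (cs.simple a * w) = cs.length w + 1 :=
    fun w a => cs.not_isLeftDescent_iff
  have hl1 : ∀ w a, cs.IsLeftDescent w a ↔ cs.length (cs.simple a * w) + 1 = cs.length w :=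
    fun w a => cs.isLeftDescent_iff
  have hxr : ∀ (P : Set S) w a, XR cs P w → a ∈ P → ¬ cs.IsRightDescent w a :=
    fun P w a hw ha => (hnr w a).2 (hw a ha)
  have key : ∀ n, ∀ (y : W) (r : S), cs.length y = n →
      cs.length (x * g * y) = cs.length x + cs.length g + cs.length y →
      XL cs {i, j} (y * cs.simple r) → cs.length (y * cs.simple r) = cs.length y + 1 →
      cs.IsRightDescent (x * g * y) r → T4 cs x g (y * cs.simple r) := by
    intro n
    induction n using Nat.strong_induction_on with
    | _ n ih =>
    intro y r hyn hlen hXL hyr hR
    have hXLy : XL cs {i, j} y := d8 _ y (cs.simple r) hXL (by rw [hyr, cs.length_simple])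
    have hgy : cs.length (g * y) = cs.length g + cs.length y :=
      (gPC {i, j}).2.2.2.2.1 y hXLy g hgI
    have hgyr : cs.length (g * (y * cs.simple r)) = cs.length g + cs.length (y * cs.simple r) :=
      (gPC {i, j}).2.2.2.2.1 _ hXL g hgI
    have hrgy : ¬ cs.IsRightDescent (g * y) r := by
      rw [hnr, mul_assoc, hgyr, hyr, hgy]
      ring
    have hry : ¬ cs.IsRightDescent y r := (hnr y r).2 hyr
    by_cases hy1 : y = 1
    · -- the case y = 1
      subst hy1
      rw [mul_one] at hR hrgy
      obtain ⟨a, b, hab, hgab, hM, hra, hrb, hRa⟩ := h4 S W M cs hL i j x g r hij hx hg hR hrgy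
      have hneab : a ≠ b := by
        rcases hab with ⟨rfl, rfl⟩ | ⟨rfl, rfl⟩
        · exact hij
        · exact hij.symm
      refine Or.inl ⟨a, b, r, hneab, hra.symm, hrb.symm, hgab, hRa, ?_⟩
      rw [hl1, one_mul]
      have hcomm := d11 b r hM
      obtain ⟨-, -, -, -, -, -, -, -, klen2, -⟩ := h1 S W M cs b r hrb.symm (hL.fin b r)
      rw [klen2, hcomm, ← mul_assoc, cs.simple_mul_simple_self, one_mul, cs.length_simple]
    · obtain ⟨s, hs⟩ := cs.exists_rightDescent_of_ne_one hy1
      have hsr : s ≠ r := fun h => hry (h ▸ hs)
      have hsgy : cs.IsRightDescent (g * y) s := (d10 g y s hgy).1 hs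
      obtain ⟨m1, m2, m3, m4, -, m6, -, -, m9, -⟩ := h1 S W M cs s r hsr (hL.fin s r)
      obtain ⟨-, pa2, pa3⟩ := gPA {s, r}
      obtain ⟨y₂, p₁, hp₁, hy₂, hyy⟩ := pa2 y
      obtain ⟨b, p₂, hp₂, hb, hbb⟩ := pa2 (g * y₂)
      have hly : cs.length y = cs.length y₂ + cs.length p₁ := by
        rw [hyy]
        exact pa3 y₂ hy₂ p₁ hp₁
      have hXLy₂ : XL cs {i, j} y₂ := by
        rw [hyy] at hXLy hly
        exact d8 _ y₂ p₁ hXLy hly
      have hlgy₂ : cs.length (g * y₂) = cs.length g + cs.length y₂ :=
        (gPC {i, j}).2.2.2.2.1 y₂ hXLy₂ g hgI
      have hlb : cs.length (g * y₂) = cs.length b + cs.length p₂ := by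
        rw [hbb]
        exact pa3 b hb p₂ hp₂
      have hp : p₂ * p₁ ∈ par cs {s, r} := mul_mem hp₂ hp₁
      have hgyb : g * y = b * (p₂ * p₁) := by
        rw [hyy, ← mul_assoc, hbb, mul_assoc]
      have hlp0 : cs.length (g * y) = cs.length b + cs.length (p₂ * p₁) := by
        rw [hgyb]
        exact pa3 b hb _ hp
      have hlp : cs.length (p₂ * p₁) = cs.length p₂ + cs.length p₁ := by omega
      have hp₁1 : p₁ ≠ 1 := by
        intro h
        rw [h, mul_one] at hyy
        rw [hyy] at hs
        exact hxr {s, r} y₂ s hy₂ (by simp) hs
      have hlp₁ : 1 ≤ cs.length p₁ := by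
        rcases Nat.eq_zero_or_pos (cs.length p₁) with h | h
        · exact absurd (cs.length_eq_zero_iff.1 h) hp₁1
        · exact h
      have hrp : ¬ cs.IsRightDescent (p₂ * p₁) r := by
        intro h
        refine hrgy ?_
        rw [hgyb]
        exact (d3 {s, r} b (p₂ * p₁) r hb hp (by simp)).2 h
      have hlpr : cs.length (p₂ * p₁ * cs.simple r) = cs.length (p₂ * p₁) + 1 := (hnr _ _).1 hrp
      have hxgy : cs.length (x * (g * y)) = cs.length x + cs.length (g * y) := by
        rw [← mul_assoc, hlen, hgy]
        ring
      obtain ⟨r', t', hrt, hLt, hLr, hRxb, hRb, hlxb, halt⟩ :=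
        h3 S W M cs hL x (g * y) b (p₂ * p₁) r s hxgy (by rw [← mul_assoc]; exact hR) hrgy hsgy hb hp
          hgyb
      have hr's : r' ∈ ({s, r} : Set S) := by
        rcases hrt with ⟨rfl, rfl⟩ | ⟨rfl, rfl⟩ <;> simp
      have ht's : t' ∈ ({s, r} : Set S) := by
        rcases hrt with ⟨rfl, rfl⟩ | ⟨rfl, rfl⟩ <;> simp
      by_cases hp₂1 : p₂ = 1
      · -- (I)
        rw [hp₂1, mul_one] at hbb
        rw [hp₂1, one_mul] at halt hlpr hlp0
        have hb2 : 2 ≤ cs.length b := by
          rw [← hbb, hlgy₂]
          omega
        have hpr : p₁ * cs.simple r = cs.simple r' * p₁ := by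
          rcases halt with h | h | h
          · rw [h, cs.length_one] at hb2
            omega
          · exact h.2
          · obtain ⟨_, q, hq, _⟩ := h
            rw [hq, cs.length_simple] at hb2
            omega
        have hyr2 : y * cs.simple r = y₂ * cs.simple r' * p₁ := by
          rw [hyy, mul_assoc, hpr, mul_assoc]
        have hl1' : cs.length (y₂ * cs.simple r') = cs.length y₂ + 1 := by
          have hle := cs.length_mul_le (y₂ * cs.simple r') p₁
          rw [← hyr2, hyr] at hle
          rcases cs.length_mul_simple y₂ r' with h | h
          · exact h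
          · omega
        have hl2' : cs.length (y₂ * cs.simple r' * p₁) =
            cs.length (y₂ * cs.simple r') + cs.length p₁ := by
          rw [← hyr2, hyr, hl1']
          omega
        have hXL2 : XL cs {i, j} (y₂ * cs.simple r' * p₁) := by
          rw [← hyr2]
          exact hXL
        have hXL3 : XL cs {i, j} (y₂ * cs.simple r') := d8 _ _ _ hXL2 hl2'
        have hT : T4 cs x g (y₂ * cs.simple r') := by
          refine ih (cs.length y₂) (by omega) y₂ r' rfl ?_ hXL3 hl1' ?_
          · rw [mul_assoc, hbb, hlxb, ← hbb, hlgy₂]
            ring
          · rw [mul_assoc, hbb]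
            exact hRxb
        rw [hyr2]
        exact h6 S W M cs hL i j x g _ p₁ hij hx hgI hl2' hXL2 hT
      · by_cases hy₂1 : y₂ = 1
        · -- (II)
          rw [hy₂1, mul_one] at hbb
          rw [hy₂1, one_mul] at hyy
          rw [hy₂1, mul_one] at hlb hlgy₂
          obtain ⟨hbI, hp₂I⟩ := (gPB {i, j}).2.2.2.2.1 b p₂ (by rw [← hbb]; exact hlb)
            (by rw [← hbb]; exact hgI)
          obtain ⟨e, he⟩ := cs.exists_rightDescent_of_ne_one hp₂1
          have heI : e ∈ ({i, j} : Set S) := (gPB {i, j}).2.1 p₂ hp₂I e he
          have hes : e ∈ ({s, r} : Set S) := (gPB {s, r}).2.1 p₂ hp₂ e he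
          -- not both in I
          have hnot : ¬ (s ∈ ({i, j} : Set S) ∧ r ∈ ({i, j} : Set S)) := by
            rintro ⟨hsI, hrI⟩
            have hyI : y ∈ par cs {i, j} := by
              rw [hyy]
              have hsub : cs.simple '' ({s, r} : Set S) ⊆ cs.simple '' ({i, j} : Set S) := by
                rintro _ ⟨k, hk, rfl⟩
                refine ⟨k, ?_, rfl⟩
                rcases hk with rfl | hk
                · exact hsI
                · rw [Set.mem_singleton_iff] at hk
                  rw [hk]
                  exact hrI
              exact Subgroup.closure_mono hsub hp₁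
            obtain ⟨k, hk⟩ := cs.exists_leftDescent_of_ne_one hy1
            have hkI := (gPB {i, j}).2.2.1 y hyI k hk
            exact (hnl y k).2 (hXLy k hkI) hk
          obtain ⟨f, hfs, hfe, hsrf⟩ : ∃ f : S, f ∈ ({s, r} : Set S) ∧ f ≠ e ∧
              ((e = s ∧ f = r) ∨ (e = r ∧ f = s)) := by
            rcases hes with h | h
            · exact ⟨r, by simp, by rw [h]; exact hsr.symm, Or.inl ⟨h, rfl⟩⟩
            · rw [Set.mem_singleton_iff] at h
              exact ⟨s, by simp, by rw [h]; exact hsr, Or.inr ⟨h, rfl⟩⟩
          have hfI : f ∉ ({i, j} : Set S) := by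
            intro hf
            rcases hsrf with ⟨rfl, rfl⟩ | ⟨rfl, rfl⟩
            · exact hnot ⟨heI, hf⟩
            · exact hnot ⟨hf, heI⟩
          obtain ⟨a, haI, hae, hIa⟩ : ∃ a : S, a ∈ ({i, j} : Set S) ∧ a ≠ e ∧
              ((e = i ∧ a = j) ∨ (e = j ∧ a = i)) := by
            rcases heI with h | h
            · exact ⟨j, by simp, by rw [h]; exact hij.symm, Or.inl ⟨h, rfl⟩⟩
            · rw [Set.mem_singleton_iff] at h
              exact ⟨i, by simp, by rw [h]; exact hij, Or.inr ⟨h, rfl⟩⟩
          have hIcase : ∀ k ∈ ({i, j} : Set S), k = a ∨ k = e := by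
            intro k hk
            rcases hk with rfl | hk
            · rcases hIa with ⟨h, _⟩ | ⟨_, h⟩
              · exact Or.inr h.symm
              · exact Or.inl h.symm
            · rw [Set.mem_singleton_iff] at hk
              rcases hIa with ⟨_, h⟩ | ⟨h, _⟩
              · exact Or.inl (hk.trans h.symm)
              · exact Or.inr (hk.trans h.symm)
          have hscase : ∀ k ∈ ({s, r} : Set S), k = f ∨ k = e := by
            intro k hk
            rcases hk with rfl | hk
            · rcases hsrf with ⟨h, _⟩ | ⟨_, h⟩
              · exact Or.inr h.symm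
              · exact Or.inl h.symm
            · rw [Set.mem_singleton_iff] at hk
              rcases hsrf with ⟨_, h⟩ | ⟨h, _⟩
              · exact Or.inl (hk.trans h.symm)
              · exact Or.inr (hk.trans h.symm)
          have haf : a ≠ f := fun h => hfI (h ▸ haI)
          -- p₂ is simple
          have hp₂e : p₂ = cs.simple e := by
            by_contra hne
            have hne1 : p₂ * cs.simple e ≠ 1 := by
              intro h
              apply hne
              rw [mul_eq_one_iff_eq_inv, cs.inv_simple] at h
              exact h
            obtain ⟨k, hk⟩ := cs.exists_rightDescent_of_ne_one hne1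
            have heI' : cs.simple e ∈ par cs {i, j} := Subgroup.subset_closure ⟨e, heI, rfl⟩
            have hes' : cs.simple e ∈ par cs {s, r} := Subgroup.subset_closure ⟨e, hes, rfl⟩
            have hkI := (gPB {i, j}).2.1 _ (mul_mem hp₂I heI') k hk
            have hks := (gPB {s, r}).2.1 _ (mul_mem hp₂ hes') k hk
            have hke : k = e := by
              rcases hscase k hks with h | h
              · exact absurd (h ▸ hkI) hfI
              · exact h
            rw [hke, hr1, cs.simple_mul_simple_cancel_right] at hk
            rw [hr1] at he
            omega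
          have hlp₂ : cs.length p₂ = 1 := by rw [hp₂e, cs.length_simple]
          have heb : ¬ cs.IsRightDescent b e := hxr _ b e hb hes
          have hlb1 : 1 ≤ cs.length b := by omega
          have hb1 : b ≠ 1 := by
            intro h
            rw [h, cs.length_one] at hlb1
            omega
          have hab : cs.IsRightDescent b a := by
            obtain ⟨k, hk⟩ := cs.exists_rightDescent_of_ne_one hb1
            rcases hIcase k ((gPB {i, j}).2.1 b hbI k hk) with h | h
            · rw [← h]
              exact hk
            · rw [h] at hk
              exact absurd hk heb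
          have hLe : cs.IsLeftDescent (p₂ * p₁) e := by
            rw [hl1, hlp, hp₂e, cs.simple_mul_simple_cancel_left, cs.length_simple]
            ring
          have hr'f : r' = f := by
            rcases hscase r' hr's with h | h
            · exact h
            · rw [h] at hLr
              exact absurd hLe hLr
          have ht'e : t' = e := by
            rcases hscase t' ht's with h | h
            · exfalso
              rcases hrt with ⟨h1, h2⟩ | ⟨h1, h2⟩
              · apply hsr
                rw [← h1, ← h2, h, hr'f]
              · apply hsr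
                rw [← h1, ← h2, h, hr'f]
            · exact h
          subst hr'f ht'e
          have hey : cs.simple t' * (y * cs.simple r) = p₂ * p₁ * cs.simple r := by
            rw [hp₂e, hyy, mul_assoc]
          rcases halt with h | ⟨_, hpr⟩ | ⟨hpm, q, hq, hMq, hRx, hRxx⟩
          · exact absurd h hb1
          · have hfL : cs.IsLeftDescent (cs.simple t' * (y * cs.simple r)) r' := by
              rw [hl1, hey, hlpr, hpr, cs.simple_mul_simple_cancel_left]
            rcases Nat.eq_or_lt_of_le hlb1 with h | h
            · have hba : b = cs.simple a := by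
                rcases (klen b hbI).1 h.symm with h2 | h2
                · rcases hIcase i (by simp) with h3 | h3
                  · rw [h2, h3]
                  · exfalso
                    rw [h2, h3] at heb
                    apply heb
                    rw [hr1, cs.simple_mul_simple_self, cs.length_one, cs.length_simple]
                · rcases hIcase j (by simp) with h3 | h3
                  · rw [h2, h3]
                  · exfalso
                    rw [h2, h3] at heb
                    apply heb
                    rw [hr1, cs.simple_mul_simple_self, cs.length_one, cs.length_simple]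
              refine Or.inl ⟨a, t', r', hae, haf, hfe.symm, ?_, ?_, hfL⟩
              · rw [hbb, hba, hp₂e]
              · rw [← hba]
                exact hRxb
            · have hbf : Full cs i j b := (kfull b).2 ⟨hbI, h⟩
              obtain ⟨a', b', hab', hbab, hMb, hra', hrb', hRa'⟩ :=
                h4 S W M cs hL i j x b r' hij hx hbf hRxb hRb
              have hb'R : cs.IsRightDescent b b' := by
                have hab2 : a' ≠ b' := by
                  rcases hab' with ⟨rfl, rfl⟩ | ⟨rfl, rfl⟩
                  · exact hij
                  · exact hij.symm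
                obtain ⟨-, -, -, -, -, -, -, -, klen2, -⟩ := h1 S W M cs a' b' hab2 (hL.fin a' b')
                rw [hr1, hbab, klen2, cs.simple_mul_simple_cancel_right, cs.length_simple]
              have hb'I : b' ∈ ({i, j} : Set S) := by
                rcases hab' with ⟨rfl, rfl⟩ | ⟨rfl, rfl⟩ <;> simp
              have ha'I : a' ∈ ({i, j} : Set S) := by
                rcases hab' with ⟨rfl, rfl⟩ | ⟨rfl, rfl⟩ <;> simp
              have hb'a : b' = a := by
                rcases hIcase b' hb'I with h | h
                · exact h
                · rw [h] at hb'R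
                  exact absurd hb'R heb
              have ha'e : a' = t' := by
                rcases hIcase a' ha'I with h | h
                · exfalso
                  apply hij
                  rcases hab' with ⟨h1, h2⟩ | ⟨h1, h2⟩
                  · rw [← h1, ← h2, h, hb'a]
                  · rw [← h1, ← h2, h, hb'a]
                · exact h
              subst hb'a ha'e
              refine Or.inr (Or.inr (Or.inr ⟨a', b', r', hae.symm, hfe.symm, hMb, ?_, hRa', hfL⟩))
              rw [hbb, hbab, hp₂e]
          · -- third alternative
            have hqa : q = a := by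
              apply hsinj
              rw [hq] at hab
              have h0 : cs.length (cs.simple q * cs.simple a) = 0 := by
                rw [hr1, cs.length_simple] at hab
                omega
              rw [cs.length_eq_zero_iff, mul_eq_one_iff_eq_inv, cs.inv_simple] at h0
              exact h0
            subst hqa
            have hprP : p₂ * p₁ * cs.simple r ∈ par cs {s, r} :=
              mul_mem hp (Subgroup.subset_closure ⟨r, by simp, rfl⟩)
            have hne0 : p₂ * p₁ * cs.simple r ≠ w0 cs s r := by
              intro h
              rw [h, m1.2.2.2.1] at hlpr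
              omega
            have hLe2 : cs.IsLeftDescent (p₂ * p₁ * cs.simple r) t' := by
              rw [hl1, hlpr, hlp, hp₂e, mul_assoc, cs.simple_mul_simple_cancel_left, ← hyy, hyr,
                cs.length_simple, hyy]
              ring
            have hLf2 : ¬ cs.IsLeftDescent (p₂ * p₁ * cs.simple r) r' := by
              intro h
              have := (m3 _ hprP).1 hne0
              rcases hsrf with ⟨rfl, rfl⟩ | ⟨rfl, rfl⟩
              · exact this.2 ⟨hLe2, h⟩
              · exact this.2 ⟨h, hLe2⟩
            have hw0 : cs.simple r' * (p₂ * p₁ * cs.simple r) = w0 cs s r := by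
              by_contra hne
              have hmem : cs.simple r' * (p₂ * p₁ * cs.simple r) ∈ par cs {s, r} :=
                mul_mem (Subgroup.subset_closure ⟨r', hfs, rfl⟩) hprP
              have hlt := (m2 _ hmem).2.1 hne
              rw [(hnl _ _).1 hLf2, hlpr] at hlt
              omega
            have hMq' : M q r' = 2 := by
              rw [M.symmetric]
              exact hMq
            refine Or.inr (Or.inl ⟨q, r', t', hae, hfe, hMq', ?_, hRx, hRxx, ?_, ?_⟩)
            · rw [hbb, hq, hp₂e]
            · rw [hey]
              exact hLf2
            · rw [mul_assoc, hey, hw0]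
              rcases hsrf with ⟨rfl, rfl⟩ | ⟨rfl, rfl⟩
              · exact m4.2.2.1
              · exact m4.2.2.2
        · -- (III)
          obtain ⟨u, hu⟩ := cs.exists_rightDescent_of_ne_one hp₂1
          have hus : u ∈ ({s, r} : Set S) := (gPB {s, r}).2.1 p₂ hp₂ u hu
          obtain ⟨v, hvs, hvu, hsrv⟩ : ∃ v : S, v ∈ ({s, r} : Set S) ∧ v ≠ u ∧
              ((u = s ∧ v = r) ∨ (u = r ∧ v = s)) := by
            rcases hus with h | h
            · exact ⟨r, by simp, by rw [h]; exact hsr.symm, Or.inl ⟨h, rfl⟩⟩
            · rw [Set.mem_singleton_iff] at h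
              exact ⟨s, by simp, by rw [h]; exact hsr, Or.inr ⟨h, rfl⟩⟩
          have hscase : ∀ k ∈ ({s, r} : Set S), k = v ∨ k = u := by
            intro k hk
            rcases hk with rfl | hk
            · rcases hsrv with ⟨h, _⟩ | ⟨_, h⟩
              · exact Or.inr h.symm
              · exact Or.inl h.symm
            · rw [Set.mem_singleton_iff] at hk
              rcases hsrv with ⟨_, h⟩ | ⟨h, _⟩
              · exact Or.inl (hk.trans h.symm)
              · exact Or.inr (hk.trans h.symm)
          have hugy : cs.IsRightDescent (g * y₂) u := by
            rw [hbb]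
            exact (d3 {s, r} b p₂ u hb hp₂ hus).2 hu
          have hup : cs.simple u ∈ par cs {s, r} := Subgroup.subset_closure ⟨u, hus, rfl⟩
          have hp₂u : p₂ * cs.simple u ∈ par cs {s, r} := mul_mem hp₂ hup
          have hu' : cs.length (p₂ * cs.simple u) + 1 = cs.length p₂ := (hr1 _ _).1 hu
          have hgyu : g * y₂ * cs.simple u = b * (p₂ * cs.simple u) := by
            rw [hbb, mul_assoc]
          have hlgyu : cs.length (g * y₂ * cs.simple u) =
              cs.length b + cs.length (p₂ * cs.simple u) := by
            rw [hgyu]
            exact pa3 b hb _ hp₂u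
          -- x is reduced with the prefixes
          have hlx1 : cs.length (x * (g * y₂)) = cs.length x + cs.length (g * y₂) := by
            have hle1 := cs.length_mul_le (x * (g * y₂)) p₁
            have hle2 := cs.length_mul_le x (g * y₂)
            have heq : x * (g * y₂) * p₁ = x * (g * y) := by
              rw [hyy, mul_assoc, mul_assoc]
            rw [heq, hxgy, hgy, hly] at hle1
            omega
          have hlx2 : cs.length (x * (g * y₂ * cs.simple u)) =
              cs.length x + cs.length (g * y₂ * cs.simple u) := by
            have hle1 := cs.length_mul_le (x * (g * y₂ * cs.simple u)) (cs.simple u)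
            have hle2 := cs.length_mul_le x (g * y₂ * cs.simple u)
            have heq : x * (g * y₂ * cs.simple u) * cs.simple u = x * (g * y₂) := by
              rw [mul_assoc, cs.simple_mul_simple_cancel_right]
            rw [heq, hlx1, cs.length_simple] at hle1
            omega
          have hbig : 2 ≤ cs.length p₂ → cs.IsRightDescent (g * y₂ * cs.simple u) v := by
            intro h2
            have hne1 : p₂ * cs.simple u ≠ 1 := by
              intro h
              rw [h, cs.length_one] at hu'
              omega
            obtain ⟨k, hk⟩ := cs.exists_rightDescent_of_ne_one hne1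
            have hks := (gPB {s, r}).2.1 _ hp₂u k hk
            have hkv : k = v := by
              rcases hscase k hks with h | h
              · exact h
              · exfalso
                rw [h, hr1, cs.simple_mul_simple_cancel_right] at hk
                omega
            rw [hgyu]
            exact (d3 {s, r} b (p₂ * cs.simple u) v hb hp₂u hvs).2 (hkv ▸ hk)
          have hlp₂1 : 1 ≤ cs.length p₂ := by omega
          have hsmall : cs.length p₂ = 1 → p₂ = cs.simple u ∧ t' = u ∧ r' = v := by
            intro h
            have hpu : p₂ = cs.simple u := by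
              have h0 : cs.length (p₂ * cs.simple u) = 0 := by omega
              rw [cs.length_eq_zero_iff, mul_eq_one_iff_eq_inv, cs.inv_simple] at h0
              exact h0
            have hLu : cs.IsLeftDescent (p₂ * p₁) u := by
              rw [hl1, hlp, hpu, cs.simple_mul_simple_cancel_left, cs.length_simple]
              ring
            have hr'v : r' = v := by
              rcases hscase r' hr's with h | h
              · exact h
              · rw [h] at hLr
                exact absurd hLu hLr
            refine ⟨hpu, ?_, hr'v⟩
            rcases hscase t' ht's with h | h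
            · exfalso
              rcases hrt with ⟨h1, h2⟩ | ⟨h1, h2⟩
              · apply hsr
                rw [← h1, ← h2, h, hr'v]
              · apply hsr
                rw [← h1, ← h2, h, hr'v]
            · exact h
          have hclaim : cs.IsRightDescent (x * g * y₂ * cs.simple u) v := by
            have heq : x * g * y₂ * cs.simple u = x * (g * y₂ * cs.simple u) := by
              simp only [mul_assoc]
            rw [heq]
            rcases Nat.lt_or_ge 1 (cs.length p₂) with h | h
            · exact (d10 x _ v hlx2).1 (hbig h)
            · obtain ⟨hpu, _, hrv⟩ := hsmall (by omega)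
              have hbe : g * y₂ * cs.simple u = b := by
                rw [hgyu, hpu, cs.simple_mul_simple_self, mul_one]
              rw [hbe, ← hrv]
              exact hRxb
          obtain ⟨θ, hyθ, hMθ, _, hθv, hgvu, hRθ, _, hRc, hRd, hRe⟩ :=
            h5 S W M cs hL i j x g y₂ u v hij hx hg hXLy₂ hy₂1 hvu.symm
              (by rw [mul_assoc, hlx1, hlgy₂]; ring) (hxr _ y₂ u hy₂ hus) (hxr _ y₂ v hy₂ hvs)
              hugy hclaim
          have hp₂len : cs.length p₂ = 1 := by
            by_contra hne
            exact hRe (hbig (by omega))
          obtain ⟨hpu, htu, hrv⟩ := hsmall hp₂len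
          have hlgg : cs.length g = 2 := by
            obtain ⟨-, -, -, -, -, -, -, -, klen2, -⟩ := h1 S W M cs v u hvu (hL.fin v u)
            rw [hgvu, klen2]
          have hly₂1 : cs.length y₂ = 1 := by rw [hyθ, cs.length_simple]
          have hlb2 : cs.length b = 2 := by omega
          have hpr : p₂ * p₁ * cs.simple r = cs.simple r' * (p₂ * p₁) := by
            rcases halt with h | h | h
            · rw [h, cs.length_one] at hlb2
              omega
            · exact h.2
            · obtain ⟨_, q, hq, _⟩ := h
              rw [hq, cs.length_simple] at hlb2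
              omega
          have hyrθ : y * cs.simple r = cs.simple θ * (p₁ * cs.simple r) := by
            rw [hyy, hyθ, mul_assoc]
          refine Or.inr (Or.inr (Or.inl ⟨θ, u, v, hθv, hvu.symm, hMθ, hgvu, ?_, ?_, hRd, hRc⟩))
          · have hle := cs.length_mul_le p₁ (cs.simple r)
            rw [cs.length_simple] at hle
            have hge : cs.length (y * cs.simple r) ≤ 1 + cs.length (p₁ * cs.simple r) := by
              rw [hyrθ]
              have := cs.length_mul_le (cs.simple θ) (p₁ * cs.simple r)
              rwa [cs.length_simple] at this
            have hly₂ : cs.length y₂ = 1 := by rw [hyθ, cs.length_simple]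
            rw [hl1]
            have he0 : cs.simple θ * (y * cs.simple r) = p₁ * cs.simple r := by
              rw [hyrθ, cs.simple_mul_simple_cancel_left]
            rw [he0]
            omega
          · have he1 : cs.simple u * cs.simple θ * (y * cs.simple r) = p₂ * p₁ * cs.simple r := by
              rw [hyrθ, mul_assoc, cs.simple_mul_simple_cancel_left, hpu, mul_assoc]
            rw [hl1, he1, hlpr, hpr, hrv, cs.simple_mul_simple_cancel_left]
  intro hlen hXL hyr hR
  exact key (cs.length y) y r rfl hlen hXL hyr hR

end Pool.Agent.Helper4.LL
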