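import Pool.Agent.Helper73.LL.Goals
import Pool.Agent.Helper31.W.DimBound

/-! Packet LL-TRLO: the trace of an alternating word bounds the overlap count. -/

set_option linter.unusedSectionVars false

namespace Pool.Agent.Helper4.LL

open Matrix Pool.Agent.Helper15.An Pool.Agent.Helper6.W Pool.Agent.Helper31.W
open Pool.Agent.Helper73.LL
open scoped ComplexOrder

section tools
variable {d : Type} [Fintype d] [DecidableEq d]

theorem conj_diag_mul (U : Matrix.unitaryGroup d ℂ) (f g : d → ℝ) :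
    ((U : Matrix d d ℂ) * diagonal (fun i => ((f i : ℝ) : ℂ)) * (U : Matrix d d ℂ)ᴴ) *
      ((U : Matrix d d ℂ) * diagonal (fun i => ((g i : ℝ) : ℂ)) * (U : Matrix d d ℂ)ᴴ) =
      (U : Matrix d d ℂ) * diagonal (fun i => ((f i * g i : ℝ) : ℂ)) *
      (U : Matrix d d ℂ)ᴴ := by
  calc _ = (U : Matrix d d ℂ) * diagonal (fun i => ((f i : ℝ) : ℂ)) *
        ((U : Matrix d d ℂ)ᴴ * (U : Matrix d d ℂ)) *
        (diagonal (fun i => ((g i : ℝ) : ℂ)) * (U : Matrix d d ℂ)ᴴ) := by
        simp only [Matrix.mul_assoc]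
    _ = (U : Matrix d d ℂ) * (diagonal (fun i => ((f i : ℝ) : ℂ)) *
        diagonal (fun i => ((g i : ℝ) : ℂ))) * (U : Matrix d d ℂ)ᴴ := by
        rw [unitary_conj_mul, Matrix.mul_one]
        simp only [Matrix.mul_assoc]
    _ = _ := by
        rw [diagonal_mul_diagonal]
        congr 3
        ext i
        push_cast
        rfl

theorem qf_conj_mul (S M : Matrix d d ℂ) (w : d → ℂ) :
    qf (Sᴴ * M * S) w = qf M (S *ᵥ w) := by
  unfold qf
  congr 1
  rw [star_mulVec, ← Matrix.dotProduct_mulVec, Matrix.mulVec_mulVec, Matrix.mulVec_mulVec,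
    Matrix.mul_assoc]

theorem nrm2_eq_zero {v : d → ℂ} (h : nrm2 v = 0) : v = 0 := by
  unfold nrm2 at h
  rw [Finset.sum_eq_zero_iff_of_nonneg (fun i _ => by positivity)] at h
  ext i
  have := h i (Finset.mem_univ i)
  simpa using this

/-- a subspace on which a Hermitian form is large forces many large eigenvalues -/
theorem count_le_count {H G X : Matrix d d ℂ} (hH : H.IsHermitian) (hG : G.IsHermitian)
    (g c : ℝ)
    (hinj : ∀ z : d → ℂ, (∀ i, hG.eigenvalues i < g → z i = 0) →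
      X *ᵥ ((hG.eigenvectorUnitary : Matrix d d ℂ) *ᵥ z) = 0 → z = 0)
    (hlow : ∀ z : d → ℂ, (∀ i, hG.eigenvalues i < g → z i = 0) →
      c * nrm2 (X *ᵥ ((hG.eigenvectorUnitary : Matrix d d ℂ) *ᵥ z)) ≤
        qf H (X *ᵥ ((hG.eigenvectorUnitary : Matrix d d ℂ) *ᵥ z))) :
    (Finset.univ.filter fun i => g ≤ hG.eigenvalues i).card ≤
      (Finset.univ.filter fun i => c ≤ hH.eigenvalues i).card := by
  classical
  by_contra hlt
  rw [not_le] at hlt
  -- extension by zero
  let ext0 : ({i : d // g ≤ hG.eigenvalues i} → ℂ) →ₗ[ℂ] (d → ℂ) :=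
    { toFun := fun z i => if h : g ≤ hG.eigenvalues i then z ⟨i, h⟩ else 0
      map_add' := fun z w => by
        ext i
        simp only [Pi.add_apply]
        split_ifs <;> simp
      map_smul' := fun a z => by
        ext i
        simp only [Pi.smul_apply, RingHom.id_apply]
        split_ifs <;> simp }
  let res : (d → ℂ) →ₗ[ℂ] ({i : d // c ≤ hH.eigenvalues i} → ℂ) :=
    { toFun := fun z i => z i.1
      map_add' := fun z w => rfl
      map_smul' := fun a z => rfl }
  let L : ({i : d // g ≤ hG.eigenvalues i} → ℂ) →ₗ[ℂ] ({i : d // c ≤ hH.eigenvalues i} → ℂ) :=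
    res ∘ₗ (Matrix.mulVecLin ((hH.eigenvectorUnitary : Matrix d d ℂ)ᴴ)) ∘ₗ
      (Matrix.mulVecLin X) ∘ₗ (Matrix.mulVecLin (hG.eigenvectorUnitary : Matrix d d ℂ)) ∘ₗ ext0
  have hker : LinearMap.ker L ≠ ⊥ := by
    apply LinearMap.ker_ne_bot_of_finrank_lt
    rw [Module.finrank_fintype_fun_eq_card, Module.finrank_fintype_fun_eq_card,
      Fintype.card_subtype, Fintype.card_subtype]
    exact hlt
  obtain ⟨z0, hz0, hz0n⟩ := (Submodule.ne_bot_iff _).1 hker
  have hz1 : ∀ i : {i : d // c ≤ hH.eigenvalues i}, ((hH.eigenvectorUnitary : Matrix d d ℂ)ᴴ *ᵥ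
      (X *ᵥ ((hG.eigenvectorUnitary : Matrix d d ℂ) *ᵥ (ext0 z0)))) i.1 = 0 := fun i =>
    congrFun (LinearMap.mem_ker.1 hz0) i
  have hsupp : ∀ i, hG.eigenvalues i < g → ext0 z0 i = 0 := by
    intro i hi
    show (if h : g ≤ hG.eigenvalues i then z0 ⟨i, h⟩ else 0) = 0
    rw [dif_neg (not_le.2 hi)]
  have hne : ext0 z0 ≠ 0 := by
    intro h
    apply hz0n
    ext i
    have h1 := congrFun h i.1
    have h2 : (if h : g ≤ hG.eigenvalues i.1 then z0 ⟨i.1, h⟩ else 0) = 0 := h1
    rw [dif_pos i.2] at h2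
    exact h2
  set w : d → ℂ := X *ᵥ ((hG.eigenvectorUnitary : Matrix d d ℂ) *ᵥ (ext0 z0)) with hw
  have hwn : w ≠ 0 := fun h => hne (hinj _ hsupp h)
  have h1 : c * nrm2 w ≤ qf H w := hlow _ hsupp
  set y : d → ℂ := (hH.eigenvectorUnitary : Matrix d d ℂ)ᴴ *ᵥ w with hy
  have h2 : qf H w = ∑ i, hH.eigenvalues i * ‖y i‖ ^ 2 := by
    have e := qf_conj_diag hH.eigenvectorUnitary hH.eigenvalues w
    rw [← spec_decomp hH] at e
    exact e
  have h3 : nrm2 w = ∑ i, ‖y i‖ ^ 2 := by
    have e := nrm2_conj_unitary hH.eigenvectorUnitary w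
    rw [← e]
    rfl
  have h4 : ∃ i, y i ≠ 0 := by
    by_contra hno
    push Not at hno
    apply hwn
    apply nrm2_eq_zero
    rw [h3]
    exact Finset.sum_eq_zero fun i _ => by rw [hno i]; simp
  rw [h2, h3, Finset.mul_sum] at h1
  have h5 : ∑ i, hH.eigenvalues i * ‖y i‖ ^ 2 < ∑ i, c * ‖y i‖ ^ 2 := by
    obtain ⟨i0, hi0⟩ := h4
    refine Finset.sum_lt_sum (fun i _ => ?_) ⟨i0, Finset.mem_univ _, ?_⟩
    · by_cases hc : c ≤ hH.eigenvalues i
      · have : y i = 0 := hz1 ⟨i, hc⟩
        rw [this]; simp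
      · exact mul_le_mul_of_nonneg_right (le_of_lt (not_le.1 hc)) (by positivity)
    · have hc : ¬ c ≤ hH.eigenvalues i0 := fun hc => hi0 (hz1 ⟨i0, hc⟩)
      exact mul_lt_mul_of_pos_right (not_le.1 hc) (by positivity)
  linarith

end tools

theorem trlo : S_TRLO := by
  intro d _ _ T Tg u hT δ a l N hT1 hT2 hu hδ0 hδ1 hTg hTgY ha h8a hN
  classical
  set Y : Matrix d d ℂ := (1 / 2 : ℝ) • ((1 : Matrix d d ℂ) + T) with hY
  have hYH : Yᴴ = Y := by
    rw [hY, conjTranspose_smul, conjTranspose_add, conjTranspose_one, hT.eq]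
    simp
  set A : Matrix d d ℂ := Y ^ l with hA
  have hAH : Aᴴ = A := by rw [hA, conjTranspose_pow, hYH]
  set M : Matrix d d ℂ := Y ^ (2 * l) with hM
  have hMA : M = A * A := by rw [hM, hA, two_mul, pow_add]
  have hu' : u * uᴴ = 1 := mul_eq_one_comm.1 hu
  set P : Matrix d d ℂ := topP hT (1 - δ) with hP
  have hPH : P.IsHermitian := topP_isHermitian hT (1 - δ)
  have hPspec : P = (hT.eigenvectorUnitary : Matrix d d ℂ) *
      diagonal (fun i => ((if 1 - δ ≤ hT.eigenvalues i then (1 : ℝ) else 0 : ℝ) : ℂ)) *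
      (hT.eigenvectorUnitary : Matrix d d ℂ)ᴴ := topIso_mul_conj' hT (1 - δ)
  have hPP : P * P = P := by
    rw [hP, topP, Matrix.mul_assoc, ← Matrix.mul_assoc (topIso hT (1 - δ))ᴴ, topIso_conj_mul,
      Matrix.one_mul]
  set θ : ℝ := (1 - δ / 2) ^ (2 * l) with hθ
  have hbase : 0 < 1 - δ / 2 := by linarith
  have hθ0 : 0 < θ := pow_pos hbase _
  -- comparison with the projection
  have hMP : (M - θ • P).PosSemidef := by
    have e3 : θ • P = (hT.eigenvectorUnitary : Matrix d d ℂ) *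
        diagonal (fun i => ((θ * (if 1 - δ ≤ hT.eigenvalues i then (1 : ℝ) else 0) : ℝ) : ℂ)) *
        (hT.eigenvectorUnitary : Matrix d d ℂ)ᴴ := by
      rw [hPspec, ← Matrix.smul_mul, ← Matrix.mul_smul]
      congr 2
      ext i j
      by_cases hij : i = j
      · subst hij
        rw [Matrix.smul_apply, diagonal_apply_eq, diagonal_apply_eq]
        split_ifs <;> simp
      · simp [hij]
    rw [hM, hY, lazy_pow_spec hT, e3, ← Matrix.sub_mul, ← Matrix.mul_sub, diagonal_sub]
    refine PosSemidef.mul_mul_conjTranspose_same (PosSemidef.diagonal ?_) _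
    intro i
    simp only [Pi.zero_apply]
    have h3 : (0 : ℝ) ≤ ((1 + hT.eigenvalues i) / 2) ^ (2 * l) -
        θ * (if 1 - δ ≤ hT.eigenvalues i then (1 : ℝ) else 0) := by
      split_ifs with h
      · rw [mul_one, hθ, sub_nonneg]
        exact pow_le_pow_left₀ hbase.le (by linarith) _
      · rw [mul_zero, sub_zero, pow_mul]
        positivity
    have h4 : ((((1 + hT.eigenvalues i) / 2) ^ (2 * l) : ℝ) : ℂ) -
        ((θ * (if 1 - δ ≤ hT.eigenvalues i then (1 : ℝ) else 0) : ℝ) : ℂ) =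
        ((((1 + hT.eigenvalues i) / 2) ^ (2 * l) -
        θ * (if 1 - δ ≤ hT.eigenvalues i then (1 : ℝ) else 0) : ℝ) : ℂ) := by
      push_cast
      ring
    rw [h4]
    exact_mod_cast h3
  -- pseudo-inverse of `A` on the range of `P`
  set B : Matrix d d ℂ := (hT.eigenvectorUnitary : Matrix d d ℂ) *
      diagonal (fun i => ((if 1 - δ ≤ hT.eigenvalues i then
        ((((1 + hT.eigenvalues i) / 2) ^ l)⁻¹ : ℝ) else 0 : ℝ) : ℂ)) *
      (hT.eigenvectorUnitary : Matrix d d ℂ)ᴴ with hB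
  have hAB : A * B = P := by
    rw [hA, hY, lazy_pow_spec hT, hB, conj_diag_mul, hPspec]
    congr 3
    ext i
    congr 1
    split_ifs with h
    · have h1 : (0 : ℝ) < (1 + hT.eigenvalues i) / 2 := by linarith
      exact mul_inv_cancel₀ (pow_pos h1 l).ne'
    · rw [mul_zero]
  have hPB : P * B = B := by
    rw [hPspec, hB, conj_diag_mul]
    congr 3
    ext i
    congr 1
    split_ifs with h
    · rw [one_mul]
    · rw [mul_zero]
  set S : Matrix d d ℂ := uᴴ * A * u with hS
  have hSH : Sᴴ = S := by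
    rw [hS, conjTranspose_mul, conjTranspose_mul, conjTranspose_conjTranspose, hAH,
      Matrix.mul_assoc]
  have hSS : S * S = uᴴ * M * u := by
    rw [hS, hMA]
    calc uᴴ * A * u * (uᴴ * A * u) = uᴴ * A * (u * uᴴ) * (A * u) := by
          simp only [Matrix.mul_assoc]
      _ = _ := by rw [hu', Matrix.mul_one]; simp only [Matrix.mul_assoc]
  set Q : Matrix d d ℂ := uᴴ * P * u with hQ
  have hQQ : Q * Q = Q := by
    rw [hQ]
    calc uᴴ * P * u * (uᴴ * P * u) = uᴴ * P * (u * uᴴ) * (P * u) := by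
          simp only [Matrix.mul_assoc]
      _ = uᴴ * (P * P) * u := by rw [hu', Matrix.mul_one]; simp only [Matrix.mul_assoc]
      _ = _ := by rw [hPP]
  have hQH : Qᴴ = Q := by
    rw [hQ, conjTranspose_mul, conjTranspose_mul, conjTranspose_conjTranspose, hPH.eq,
      Matrix.mul_assoc]
  set X : Matrix d d ℂ := uᴴ * B * u with hX
  have hSX : S * X = Q := by
    rw [hS, hX, hQ]
    calc uᴴ * A * u * (uᴴ * B * u) = uᴴ * A * (u * uᴴ) * (B * u) := by
          simp only [Matrix.mul_assoc]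
      _ = uᴴ * (A * B) * u := by rw [hu', Matrix.mul_one]; simp only [Matrix.mul_assoc]
      _ = _ := by rw [hAB]
  have hQX : Q * X = X := by
    rw [hQ, hX]
    calc uᴴ * P * u * (uᴴ * B * u) = uᴴ * P * (u * uᴴ) * (B * u) := by
          simp only [Matrix.mul_assoc]
      _ = uᴴ * (P * B) * u := by rw [hu', Matrix.mul_one]; simp only [Matrix.mul_assoc]
      _ = _ := by rw [hPB]
  have hGH : (ovM P u).IsHermitian := ovM_isHermitian u hPH
  have hGdef : ovM P u = Q * P * Q := rfl
  set H : Matrix d d ℂ := S * Tg * S with hH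
  have hHH : H.IsHermitian := by
    have h1 : (Sᴴ * Tg * S).IsHermitian := Matrix.isHermitian_conjTranspose_mul_mul S hTg
    rwa [hSH] at h1
  -- the trace
  have htr : (trace ((Tg * (uᴴ * M * u)) ^ N)).re = ∑ i, hHH.eigenvalues i ^ N := by
    rw [← hSS, ← Matrix.mul_assoc, trace_mul_pow_comm, ← Matrix.mul_assoc,
      trace_eq_sum_pow hHH]
  rw [htr]
  -- vectors of the top space of `G`
  have hQe : ∀ z : d → ℂ, (∀ i, hGH.eigenvalues i < 1 / 4 → z i = 0) →
      Q *ᵥ ((hGH.eigenvectorUnitary : Matrix d d ℂ) *ᵥ z) =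
        (hGH.eigenvectorUnitary : Matrix d d ℂ) *ᵥ z := by
    intro z hz
    set V : Matrix d d ℂ := (hGH.eigenvectorUnitary : Matrix d d ℂ) with hV
    -- z = D z'
    set z' : d → ℂ := fun i => ((hGH.eigenvalues i)⁻¹ : ℝ) * z i with hz'
    have h1 : z = diagonal (fun i => ((hGH.eigenvalues i : ℝ) : ℂ)) *ᵥ z' := by
      ext i
      rw [mulVec_diagonal, hz']
      by_cases hi : hGH.eigenvalues i < 1 / 4
      · simp [hz i hi]
      · have h0 : hGH.eigenvalues i ≠ 0 := by
          rw [not_lt] at hi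
          intro h
          rw [h] at hi
          norm_num at hi
        have h0' : ((hGH.eigenvalues i : ℝ) : ℂ) ≠ 0 := by exact_mod_cast h0
        push_cast
        field_simp
    have h2 : V *ᵥ z = (ovM P u * V) *ᵥ z' := by
      have e : ovM P u * V = V * diagonal (fun i => ((hGH.eigenvalues i : ℝ) : ℂ)) := by
        calc ovM P u * V = (V * diagonal (fun i => ((hGH.eigenvalues i : ℝ) : ℂ)) * Vᴴ) * V :=
              congrArg (fun Z => Z * V) (spec_decomp hGH)
          _ = _ := by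
            rw [Matrix.mul_assoc, hV, unitary_conj_mul, Matrix.mul_one]
      rw [e, ← Matrix.mulVec_mulVec, ← h1]
    have h3 : Q * (ovM P u) = ovM P u := by
      calc Q * (ovM P u) = Q * Q * P * Q := by
            rw [hGdef]
            simp only [Matrix.mul_assoc]
        _ = Q * P * Q := by rw [hQQ]
        _ = _ := hGdef.symm
    rw [h2, Matrix.mulVec_mulVec, ← Matrix.mul_assoc, h3]
  have hcount : (Finset.univ.filter fun i => (1 / 4 : ℝ) ≤ hGH.eigenvalues i).card ≤
      (Finset.univ.filter fun i => (1 - δ / 2) ^ (4 * l) / 8 ≤ hHH.eigenvalues i).card := by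
    refine count_le_count (X := X) hHH hGH (1 / 4) _ ?_ ?_
    · intro z hz hX0
      have h1 : S *ᵥ (X *ᵥ ((hGH.eigenvectorUnitary : Matrix d d ℂ) *ᵥ z)) = 0 := by
        rw [hX0, Matrix.mulVec_zero]
      rw [Matrix.mulVec_mulVec, hSX, hQe z hz] at h1
      have h2 : (hGH.eigenvectorUnitary : Matrix d d ℂ)ᴴ *ᵥ
          ((hGH.eigenvectorUnitary : Matrix d d ℂ) *ᵥ z) = 0 := by
        rw [h1, Matrix.mulVec_zero]
      rwa [Matrix.mulVec_mulVec, unitary_conj_mul, Matrix.one_mulVec] at h2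
    · intro z hz
      set x : d → ℂ := (hGH.eigenvectorUnitary : Matrix d d ℂ) *ᵥ z with hx
      set w : d → ℂ := X *ᵥ x with hw
      have hQx : Q *ᵥ x = x := hQe z hz
      have hSw : S *ᵥ w = x := by rw [hw, Matrix.mulVec_mulVec, hSX, hQx]
      have hQw : Q *ᵥ w = w := by rw [hw, Matrix.mulVec_mulVec, hQX]
      have h1 : qf H w = qf Tg x := by
        rw [hH]
        have := qf_conj_mul S Tg w
        rw [hSH, hSw] at this
        exact this
      -- lower bound for `Tg` at `x`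
      have h2 := qf_nonneg hTgY x
      rw [qf_sub, qf_sub, qf_smul, qf_one] at h2
      have h3 := qf_nonneg hMP x
      rw [qf_sub, qf_smul] at h3
      have h4 : qf P x = qf (ovM P u) x := by
        rw [hGdef]
        have := qf_conj_mul Q P x
        rw [hQH, hQx] at this
        exact this.symm
      have h5 : 1 / 4 * nrm2 x ≤ qf (ovM P u) x := by
        have e := qf_conj_diag hGH.eigenvectorUnitary hGH.eigenvalues x
        rw [← spec_decomp hGH] at e
        have hz1 : (hGH.eigenvectorUnitary : Matrix d d ℂ)ᴴ *ᵥ x = z := by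
          rw [hx, Matrix.mulVec_mulVec, unitary_conj_mul, Matrix.one_mulVec]
        have hn : nrm2 x = nrm2 z := by
          rw [← nrm2_conj_unitary hGH.eigenvectorUnitary x, hz1]
        rw [e, hz1, hn]
        unfold nrm2
        rw [Finset.mul_sum]
        refine Finset.sum_le_sum fun i _ => ?_
        by_cases hi : hGH.eigenvalues i < 1 / 4
        · rw [hz i hi]; simp
        · exact mul_le_mul_of_nonneg_right (not_lt.1 hi) (by positivity)
      -- `S` expands on the range of `Q`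
      have h6 : θ * nrm2 w ≤ nrm2 x := by
        have e1 : nrm2 x = qf M (u *ᵥ w) := by
          rw [← hSw, nrm2_mulVec, hSH, hSS, qf_conj_mul]
        have e2 := qf_nonneg hMP (u *ᵥ w)
        rw [qf_sub, qf_smul] at e2
        have e3 : qf P (u *ᵥ w) = nrm2 w := by
          rw [← qf_conj_mul]
          rw [← hQ]
          have : qf (Qᴴ * Q) w = nrm2 (Q *ᵥ w) := (nrm2_mulVec Q w).symm
          rw [hQH, hQQ, hQw] at this
          exact this
        rw [e1]
        rw [e3] at e2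
        linarith
      have hnx := nrm2_nonneg x
      have h7 : θ / 8 * nrm2 x ≤ qf Tg x := by
        have h8 : a * nrm2 x ≤ θ / 8 * nrm2 x :=
          mul_le_mul_of_nonneg_right (by linarith) hnx
        have h9 : θ * (1 / 4 * nrm2 x) ≤ θ * qf P x := by
          rw [h4]
          exact mul_le_mul_of_nonneg_left h5 hθ0.le
        linarith
      have h10 : (1 - δ / 2) ^ (4 * l) = θ * θ := by
        rw [hθ, ← pow_add]
        congr 1
        ring
      rw [h1, h10]
      calc θ * θ / 8 * nrm2 w = θ / 8 * (θ * nrm2 w) := by ring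
        _ ≤ θ / 8 * nrm2 x := mul_le_mul_of_nonneg_left h6 (by positivity)
        _ ≤ _ := h7
  have hc0 : 0 ≤ (1 - δ / 2) ^ (4 * l) / 8 := by positivity
  have hov : ovc u hPH = (Finset.univ.filter fun i => (1 / 4 : ℝ) ≤ hGH.eigenvalues i).card := rfl
  calc (ovc u (topP_isHermitian hT (1 - δ)) : ℝ) * ((1 - δ / 2) ^ (4 * l) / 8) ^ N
      ≤ ((Finset.univ.filter fun i => (1 - δ / 2) ^ (4 * l) / 8 ≤ hHH.eigenvalues i).card : ℝ) *
        ((1 - δ / 2) ^ (4 * l) / 8) ^ N := by
        refine mul_le_mul_of_nonneg_right ?_ (pow_nonneg hc0 N)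
        exact_mod_cast hcount
    _ = ∑ i ∈ Finset.univ.filter fun i => (1 - δ / 2) ^ (4 * l) / 8 ≤ hHH.eigenvalues i,
        ((1 - δ / 2) ^ (4 * l) / 8) ^ N := by rw [Finset.sum_const, nsmul_eq_mul]
    _ ≤ ∑ i ∈ Finset.univ.filter fun i => (1 - δ / 2) ^ (4 * l) / 8 ≤ hHH.eigenvalues i,
        hHH.eigenvalues i ^ N :=
        Finset.sum_le_sum fun i hi => pow_le_pow_left₀ hc0 (Finset.mem_filter.1 hi).2 N
    _ ≤ ∑ i, hHH.eigenvalues i ^ N :=
        Finset.sum_le_sum_of_subset_of_nonneg (Finset.filter_subset _ _)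
          fun i _ _ => hN.pow_nonneg _

end Pool.Agent.Helper4.LL
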